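import Pool.Agent.Q161.ESV.Stm1
import Pool.Agent.Q190.ESN.Base

/-!
# Project ESV (helper161): jobs QAV, QDV (adapted from `Pool/Agent/Q190/ESN/Base.lean`)
-/

set_option autoImplicit false
set_option linter.unusedSectionVars false

namespace Pool.Agent.Q277.ESV

open NumberField IsDedekindDomain Finset
open Pool.Agent.Q51.EL (Abv Par)
open Pool.Agent.Q161.ESV
open Pool.Agent.Q237.ESM (bl val_bl abv_bl mem_bl coe_ne' val_l exp_ne_one)
open Pool.Agent.Q285.ESG (zmod2 par_zero par_one)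
open Pool.Agent.Q190.ESN (exists_above prod_smul)

/-- linear forms separate the elements -/
theorem exists_form {V : Type} [AddCommGroup V] (hV : ∀ v : V, v + v = 0) {v : V} (hv : v ≠ 0) :
    ∃ χ : V →+ ZMod 2, χ v ≠ 0 := by
  let _ : Module (ZMod 2) V := AddCommGroup.zmodModule (n := 2) fun x => by rw [two_nsmul]; exact hV x
  by_contra hcon
  push Not at hcon
  apply hv
  rw [← Module.forall_dual_apply_eq_zero_iff (ZMod 2) v]
  intro f
  exact hcon f.toAddMonoidHom

theorem par_unique {K : Type} [Field K] [NumberField K] {w : HeightOneSpectrum (𝓞 K)} {x : K}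
    (h0 : Par w x 0) (h1 : Par w x 1) : False := by
  obtain ⟨a, ha⟩ := h0
  obtain ⟨b, hb⟩ := h1
  rw [ha, WithZero.exp_inj] at hb
  omega

section

variable {F K : Type} [Field F] [NumberField F] [Field K] [NumberField K] [Algebra F K]
  {V : Type} [AddCommGroup V] [DistribMulAction (K ≃ₐ[F] K) V]

/-- the type of a prime is unique -/
theorem tyv_unique (hV : ∀ v : V, v + v = 0) {Δ : (V →+ ZMod 2) → K} {w : HeightOneSpectrum (𝓞 K)}
    {t t' : V} (h : TyV w Δ t) (h' : TyV w Δ t') : t = t' := by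
  by_contra hne
  obtain ⟨χ, hχ⟩ := exists_form hV (sub_ne_zero.2 hne)
  rw [map_sub] at hχ
  have h1 := h χ
  have h2 := h' χ
  rcases zmod2 (χ t) with h3 | h3 <;> rcases zmod2 (χ t') with h4 | h4
  · exact hχ (by rw [h3, h4, sub_self])
  · rw [h3] at h1
    rw [h4] at h2
    exact par_unique h1 h2
  · rw [h3] at h1
    rw [h4] at h2
    exact par_unique h2 h1
  · exact hχ (by rw [h3, h4, sub_self])

/-- the valuations of the products of the `Z t` -/
theorem val_prodV [Fintype V] (hV : ∀ v : V, v + v = 0) {B : ℕ} {D : 𝓞 F} {Δ : (V →+ ZMod 2) → K}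
    {Z : V → 𝓞 K} (hR : RV0 B D Δ Z) {l : ℕ} (hl : l.Prime) (hlB : ¬ l ∣ B)
    {w : HeightOneSpectrum (𝓞 K)} (hw : Abv w l) (hD : iO F K D ∈ w.asIdeal) {t0 : V}
    (h0 : TyV w Δ t0) (P : V → Prop) [DecidablePred P] :
    w.valuation K (∏ t ∈ univ.filter P, (Z t : K)) = if P t0 then WithZero.exp (-1 : ℤ) else 1 := by
  classical
  rw [map_prod]
  have h1 : ∀ t ∈ univ.filter P, w.valuation K (Z t : K) =
      if t0 = t then WithZero.exp (-1 : ℤ) else 1 := by
    intro t _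
    split_ifs with h
    · rw [← h]
      exact (hR.typ l hl hlB w hw t0).1 ⟨hD, h0⟩
    · exact (hR.typ l hl hlB w hw t).2 fun h2 => h (tyv_unique hV h0 h2.2)
  rw [prod_congr rfl h1, prod_ite_eq]
  simp only [mem_filter, mem_univ, true_and]

theorem val_prodV_one [Fintype V] {B : ℕ} {D : 𝓞 F} {Δ : (V →+ ZMod 2) → K}
    {Z : V → 𝓞 K} (hR : RV0 B D Δ Z) {l : ℕ} (hl : l.Prime) (hlB : ¬ l ∣ B)
    {w : HeightOneSpectrum (𝓞 K)} (hw : Abv w l) (hD : iO F K D ∉ w.asIdeal) (P : V → Prop)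
    [DecidablePred P] :
    w.valuation K (∏ t ∈ univ.filter P, (Z t : K)) = 1 := by
  rw [map_prod]
  exact prod_eq_one fun t _ => (hR.typ l hl hlB w hw t).2 fun h2 => hD h2.1

end

/-- **QDV** -/
theorem qdv : S_SUF → S_QDV := by
  classical
  intro hSUF F K _ _ _ _ _ _ V _ _ _ hV
  have : IsGalois F K := IsGalois.tower_top_of_isGalois ℚ F K
  obtain ⟨B1, hB1, hB⟩ := Pool.Agent.Q224.ESM.frx K
  refine ⟨B1, hB1, fun B hBB hB0 => ?_⟩
  obtain ⟨Q, hQ0, hQ⟩ := hSUF F B hB0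
  refine ⟨Q, hQ0, fun D Δ Z hR => ?_⟩
  obtain ⟨M, hM⟩ : ∃ M : K, M = algebraMap F K (D : F) * ∏ t ∈ univ.filter (fun _ => True), (Z t : K) :=
    ⟨_, rfl⟩
  have hD0 : (D : F) ≠ 0 := coe_ne' hR.kd.sq.1
  have hM0 : M ≠ 0 := by
    rw [hM]
    refine mul_ne_zero ?_ (prod_ne_zero_iff.2 fun t _ => coe_ne' (hR.ne t))
    rw [Ne, map_eq_zero]
    exact hD0
  have hfix : ∀ g : K ≃ₐ[F] K, g M = M := by
    intro g
    rw [hM, map_mul, prod_smul hR.eqv g (fun _ => True) (fun _ => True) fun t => Iff.rfl,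
      AlgEquiv.commutes]
  obtain ⟨m, hm⟩ := (IsGalois.mem_range_algebraMap_iff_fixed (F := F) (E := K) M).2 hfix
  have hm0 : m ≠ 0 := by
    rintro rfl
    rw [map_zero] at hm
    exact hM0 hm.symm
  obtain ⟨μ, hμ, s, hs, hms⟩ := hQ m hm0 (by
    intro v hv
    obtain ⟨l, _, hl, hlv, -, -⟩ := Pool.Agent.Q239.EL.below v
    have hlB : ¬ l ∣ B := by
      rintro ⟨c, hc⟩
      apply hv
      rw [hc, Nat.cast_mul]
      exact v.asIdeal.mul_mem_right _ hlv
    obtain ⟨hsq, -, -⟩ := hB l hl fun h => hlB (h.trans hBB)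
    obtain ⟨w, hw, rfl⟩ := exists_above (algebraMap F K) v hl hlv
    have h1 : (bl (algebraMap F K) w hl hw).valuation F m =
        (bl (algebraMap F K) w hl hw).valuation F (D : F) *
          w.valuation K (∏ t ∈ univ.filter (fun _ => True), (Z t : K)) := by
      rw [← val_bl (algebraMap F K) w hl hw hsq, hm, hM, map_mul,
        val_bl (algebraMap F K) w hl hw hsq]
    unfold Par
    rw [h1]
    by_cases hwD : iO F K D ∈ w.asIdeal
    · obtain ⟨t0, ht0, -⟩ := hR.kd.odd l hl hlB w hw hwD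
      rw [val_prodV hV hR hl hlB hw hwD ht0, if_pos trivial]
      have h2 := (HeightOneSpectrum.valuation_lt_one_iff_mem (K := F) (bl (algebraMap F K) w hl hw) D).2 hwD
      rcases hR.kd.sq.2 l hl hlB (bl (algebraMap F K) w hl hw) hlv with h3 | h3
      · exact absurd h3 h2.ne
      · rw [h3, ← WithZero.exp_add]
        exact ⟨-1, by norm_num⟩
    · rw [val_prodV_one hR hl hlB hw hwD, mul_one,
        Pool.Agent.Q261.ESG.val_one' (v := bl (algebraMap F K) w hl hw) hwD]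
      exact ⟨0, by simp⟩)
  refine ⟨μ, hμ, s, hs, ?_⟩
  rw [← hms, hm, hM, filter_true]

/-- **QAV** -/
theorem qav : S_SUF → S_QAV := by
  classical
  intro hSUF F K _ _ _ _ _ _ V _ _ _ hV
  have : IsGalois F K := IsGalois.tower_top_of_isGalois ℚ F K
  obtain ⟨B1, hB1, hB⟩ := Pool.Agent.Q224.ESM.frx K
  refine ⟨B1, hB1, fun B hBB hB0 => ?_⟩
  -- the stabilisers and their fixed fields
  obtain ⟨H, hH⟩ : ∃ H : (V →+ ZMod 2) → Subgroup (K ≃ₐ[F] K), ∀ χ g, g ∈ H χ ↔ tw g χ = χ := by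
    have o : ∀ χ : V →+ ZMod 2, (1 : K ≃ₐ[F] K) ∈ {g : K ≃ₐ[F] K | tw g χ = χ} := by
      intro χ
      show tw (1 : K ≃ₐ[F] K) χ = χ
      ext v
      show χ ((1 : K ≃ₐ[F] K) • v) = χ v
      rw [one_smul]
    have m : ∀ (χ : V →+ ZMod 2) {a b : K ≃ₐ[F] K}, a ∈ {g : K ≃ₐ[F] K | tw g χ = χ} →
        b ∈ {g : K ≃ₐ[F] K | tw g χ = χ} → a * b ∈ {g : K ≃ₐ[F] K | tw g χ = χ} := by
      intro χ a b ha hb
      show tw (a * b) χ = χ
      ext v
      show χ ((a * b) • v) = χ v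
      have h1 : χ (a • b • v) = χ (b • v) := DFunLike.congr_fun ha (b • v)
      have h2 : χ (b • v) = χ v := DFunLike.congr_fun hb v
      rw [mul_smul, h1, h2]
    have i : ∀ (χ : V →+ ZMod 2) {a : K ≃ₐ[F] K}, a ∈ {g : K ≃ₐ[F] K | tw g χ = χ} →
        a⁻¹ ∈ {g : K ≃ₐ[F] K | tw g χ = χ} := by
      intro χ a ha
      show tw a⁻¹ χ = χ
      ext v
      show χ (a⁻¹ • v) = χ v
      have h1 : χ (a • a⁻¹ • v) = χ (a⁻¹ • v) := DFunLike.congr_fun ha (a⁻¹ • v)
      rw [← h1, smul_inv_smul]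
    exact ⟨fun χ =>
      { carrier := {g | tw g χ = χ}
        one_mem' := o χ
        mul_mem' := m χ
        inv_mem' := i χ }, fun χ g => Iff.rfl⟩
  have : Finite (V →+ ZMod 2) := Finite.of_injective (fun χ : V →+ ZMod 2 => (χ : V → ZMod 2))
    DFunLike.coe_injective
  let _ : Fintype (V →+ ZMod 2) := Fintype.ofFinite _
  choose Q hQ0 hQ using fun χ : V →+ ZMod 2 =>
    hSUF (IntermediateField.fixedField (H χ) : IntermediateField F K) B hB0
  refine ⟨Fintype.piFinset fun χ => (Q χ).image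
    fun x : ↥(IntermediateField.fixedField (H χ) : IntermediateField F K) => (x : K), ?_,
    fun D Δ Z hR => ?_⟩
  · intro a ha χ
    rw [Fintype.mem_piFinset] at ha
    obtain ⟨x, hx, hxa⟩ := mem_image.1 (ha χ)
    rw [← hxa]
    refine ⟨?_, fun g hg => ?_⟩
    · intro h0
      exact hQ0 χ x hx (Subtype.ext h0)
    · have h1 := (IntermediateField.mem_fixedField_iff (H χ) (x : K)).1 x.2
      exact h1 g ((hH χ g).2 hg)
  have key : ∀ χ : V →+ ZMod 2, ∃ a ∈ Q χ, ∃ q : K, q ≠ 0 ∧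
      (∀ g : K ≃ₐ[F] K, tw g χ = χ → g q = q) ∧
        Δ χ * (∏ t ∈ univ.filter (fun t => χ t = 1), (Z t : K)) = (a : K) * q ^ 2 := by
    intro χ
    obtain ⟨Y, hY⟩ : ∃ Y, Y = Δ χ * (∏ t ∈ univ.filter (fun t => χ t = 1), (Z t : K)) := ⟨_, rfl⟩
    have hfix : ∀ g ∈ H χ, g Y = Y := by
      intro g hg
      have hg' := (hH χ g).1 hg
      have h1 : g (Δ χ) = Δ χ := by
        have := hR.kd.eqv g χ
        rwa [hg'] at this
      rw [hY, map_mul, h1, prod_smul hR.eqv g (fun t => χ t = 1) (fun t => χ t = 1) fun t => by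
        have h2 : χ (g • t) = χ t := DFunLike.congr_fun hg' t
        rw [h2]]
    have hYm : Y ∈ (IntermediateField.fixedField (H χ) : IntermediateField F K) :=
      (IntermediateField.mem_fixedField_iff (H χ) Y).2 hfix
    have hY0 : Y ≠ 0 := by
      rw [hY]
      exact mul_ne_zero (hR.kd.ne χ) (prod_ne_zero_iff.2 fun t _ => coe_ne' (hR.ne t))
    obtain ⟨a, ha, q, hq, haq⟩ := hQ χ ⟨Y, hYm⟩ (fun h0 => hY0 (congrArg Subtype.val h0)) (by
      intro v hv
      obtain ⟨l, _, hl, hlv, -, -⟩ := Pool.Agent.Q239.EL.below v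
      have hlB : ¬ l ∣ B := by
        rintro ⟨c, hc⟩
        apply hv
        rw [hc, Nat.cast_mul]
        exact v.asIdeal.mul_mem_right _ hlv
      obtain ⟨hsq, -, -⟩ := hB l hl fun h => hlB (h.trans hBB)
      obtain ⟨w, hw, rfl⟩ := exists_above
        (algebraMap (IntermediateField.fixedField (H χ) : IntermediateField F K) K) v hl hlv
      have h1 : (bl (algebraMap (IntermediateField.fixedField (H χ) : IntermediateField F K) K)
          w hl hw).valuation _ (⟨Y, hYm⟩ : (IntermediateField.fixedField (H χ) : IntermediateField F K))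
          = w.valuation K Y := by
        rw [← val_bl _ w hl hw hsq]
        rfl
      unfold Par
      rw [h1, hY, map_mul]
      by_cases hwD : iO F K D ∈ w.asIdeal
      · obtain ⟨t0, ht0, -⟩ := hR.kd.odd l hl hlB w hw hwD
        rw [val_prodV hV hR hl hlB hw hwD ht0]
        obtain ⟨n, hn⟩ := ht0 χ
        rw [hn]
        rcases zmod2 (χ t0) with h2 | h2
        · rw [if_neg (by rw [h2]; decide), mul_one, h2]
          exact ⟨n, by simp⟩
        · rw [if_pos h2, h2, ← WithZero.exp_add]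
          refine ⟨n, ?_⟩
          rw [WithZero.exp_inj]
          have : ((1 : ZMod 2).val : ℤ) = 1 := rfl
          rw [this]
          ring
      · obtain ⟨n, hn⟩ := hR.kd.even l hl hlB w hw hwD χ
        rw [hn, val_prodV_one hR hl hlB hw hwD, mul_one]
        exact ⟨n, rfl⟩)
    refine ⟨a, ha, (q : K), fun h0 => hq (Subtype.ext h0), fun g hg => ?_, ?_⟩
    · have h1 := (IntermediateField.mem_fixedField_iff (H χ) (q : K)).1 q.2
      exact h1 g ((hH χ g).2 hg)
    · rw [← hY]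
      exact congrArg Subtype.val haq
  choose a ha q hq hqf haq using key
  refine ⟨fun χ => (a χ : K), ?_, fun χ => ⟨q χ, hq χ, hqf χ, haq χ⟩⟩
  rw [Fintype.mem_piFinset]
  intro χ
  exact mem_image.2 ⟨a χ, ha χ, rfl⟩

end Pool.Agent.Q277.ESV
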