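import Pool.Agent.Q161.ESV.Stm2

/-!
# Project ESV (helper161): job POW, powers of `W`
-/

set_option autoImplicit false
set_option linter.unusedSectionVars false

namespace Pool.Agent.Q277.ESV

open NumberField IsDedekindDomain Finset
open Pool.Agent.Q161.ESV

section

variable {F : Type} [Field F] {W : Type} [AddCommGroup W] [DistribMulAction (GF F) W]

theorem stab_sup {A B : AddSubgroup W} (hA : ∀ (σ : GF F), ∀ u ∈ A, σ • u ∈ A)
    (hB : ∀ (σ : GF F), ∀ u ∈ B, σ • u ∈ B) : ∀ (σ : GF F), ∀ u ∈ A ⊔ B, σ • u ∈ A ⊔ B := by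
  intro σ v hv
  rw [AddSubgroup.mem_sup] at hv ⊢
  obtain ⟨a, ha, b, hb, rfl⟩ := hv
  exact ⟨σ • a, hA σ a ha, σ • b, hB σ b hb, (smul_add σ a b).symm⟩

theorem kill_sup {Y : Type} [AddCommGroup Y] {A B : AddSubgroup Y} (hA : ∀ u ∈ A, u + u = 0)
    (hB : ∀ u ∈ B, u + u = 0) : ∀ u ∈ A ⊔ B, u + u = 0 := by
  intro v hv
  rw [AddSubgroup.mem_sup] at hv
  obtain ⟨a, ha, b, hb, rfl⟩ := hv
  have h1 := hA a ha
  have h2 := hB b hb
  have h3 : a + b + (a + b) = (a + a) + (b + b) := by abel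
  rw [h3, h1, h2, add_zero]

theorem fin_pow (k : ℕ) (hA : Adm F W) : {w : Fin k → W | w + w = 0}.Finite := by
  refine Set.Finite.subset (Set.Finite.pi' fun _ : Fin k => hA.fin) ?_
  intro w hw j
  exact congrFun hw j

theorem single_smul (k : ℕ) (σ : GF F) (j : Fin k) (x : W) :
    σ • (Pi.single j x : Fin k → W) = Pi.single j (σ • x) := by
  funext i
  by_cases h : i = j
  · subst h
    simp
  · simp [h]

theorem ss_pow (k : ℕ) (hA : Adm F W) (U : AddSubgroup (Fin k → W)) (hU : ∀ u ∈ U, u + u = 0)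
    (hUs : ∀ (σ : GF F), ∀ u ∈ U, σ • u ∈ U) :
    ∃ U' : AddSubgroup (Fin k → W), (∀ u ∈ U', u + u = 0) ∧ (∀ (σ : GF F), ∀ u ∈ U', σ • u ∈ U') ∧
      U ⊓ U' = ⊥ ∧ ∀ w : Fin k → W, w + w = 0 → w ∈ U ⊔ U' := by
  classical
  have hT := fin_pow k hA
  let s : Set (AddSubgroup (Fin k → W)) := {U' | (∀ u ∈ U', u + u = 0) ∧
    (∀ (σ : GF F), ∀ u ∈ U', σ • u ∈ U') ∧ U ⊓ U' = ⊥}
  have hs : s.Finite := by
    refine Set.Finite.subset (Set.Finite.preimage
      (f := fun U' : AddSubgroup (Fin k → W) => (U' : Set (Fin k → W)))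
      SetLike.coe_injective.injOn hT.finite_subsets) ?_
    intro U' hU' u hu
    exact hU'.1 u hu
  have hne : s.Nonempty := by
    refine ⟨⊥, ?_, ?_, inf_bot_eq U⟩
    · intro u hu
      rw [AddSubgroup.mem_bot] at hu
      rw [hu, add_zero]
    · intro σ u hu
      rw [AddSubgroup.mem_bot] at hu ⊢
      rw [hu, smul_zero]
  obtain ⟨U', hmax⟩ := hs.exists_maximal hne
  obtain ⟨h2, hst, hUU'⟩ : (∀ u ∈ U', u + u = 0) ∧ (∀ (σ : GF F), ∀ u ∈ U', σ • u ∈ U') ∧
    U ⊓ U' = ⊥ := hmax.1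
  refine ⟨U', h2, hst, hUU', ?_⟩
  have key : ∀ (j : Fin k) (x : W), x + x = 0 → (Pi.single j x : Fin k → W) ∈ U ⊔ U' := by
    intro j
    obtain ⟨A, hAm⟩ : ∃ A : AddSubgroup W, ∀ x, x ∈ A ↔ x + x = 0 ∧
        (Pi.single j x : Fin k → W) ∈ U ⊔ U' := by
      refine ⟨AddSubgroup.comap (AddMonoidHom.single (fun _ : Fin k => W) j) (U ⊔ U'), fun x => ?_⟩
      rw [AddSubgroup.mem_comap]
      constructor
      · intro hx
        refine ⟨?_, hx⟩
        have h3 := congrFun (kill_sup hU h2 _ hx) j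
        simpa using h3
      · exact fun hx => hx.2
    obtain ⟨C, hC2, hCs, hAC, hCt⟩ := hA.ss A (fun u hu => ((hAm u).1 hu).1) (fun σ u hu => by
      rw [hAm]
      obtain ⟨h3, h4⟩ := (hAm u).1 hu
      refine ⟨by rw [← smul_add, h3, smul_zero], ?_⟩
      rw [← single_smul]
      exact stab_sup hUs hst σ _ h4)
    obtain ⟨C', hC'⟩ : ∃ C' : AddSubgroup (Fin k → W), ∀ y, y ∈ C' ↔ ∃ c ∈ C, Pi.single j c = y :=
      ⟨AddSubgroup.map (AddMonoidHom.single (fun _ : Fin k => W) j) C, fun y => AddSubgroup.mem_map⟩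
    have h3 : ∀ y ∈ C', y ∈ U ⊔ U' → y = 0 := by
      intro y hy hy'
      obtain ⟨c, hc, rfl⟩ := (hC' y).1 hy
      have h4 : c ∈ A ⊓ C := AddSubgroup.mem_inf.2 ⟨(hAm c).2 ⟨hC2 c hc, hy'⟩, hc⟩
      rw [hAC, AddSubgroup.mem_bot] at h4
      rw [h4, Pi.single_zero]
    have h4 : U' ⊔ C' ∈ s := by
      refine ⟨kill_sup h2 ?_, stab_sup hst ?_, ?_⟩
      · intro y hy
        obtain ⟨c, hc, rfl⟩ := (hC' y).1 hy
        rw [← Pi.single_add, hC2 c hc, Pi.single_zero]
      · intro σ y hy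
        obtain ⟨c, hc, rfl⟩ := (hC' y).1 hy
        rw [single_smul]
        exact (hC' _).2 ⟨σ • c, hCs σ c hc, rfl⟩
      · rw [eq_bot_iff]
        intro v hv
        rw [AddSubgroup.mem_inf, AddSubgroup.mem_sup] at hv
        obtain ⟨hvW, a, ha, c, hc, hac⟩ := hv
        have hc0 : c = 0 := by
          apply h3 c hc
          have : c = v - a := by rw [← hac]; abel
          rw [this]
          exact sub_mem (AddSubgroup.mem_sup_left hvW) (AddSubgroup.mem_sup_right ha)
        rw [hc0, add_zero] at hac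
        rw [← hUU', AddSubgroup.mem_inf]
        exact ⟨hvW, hac ▸ ha⟩
    have h5 : U' ⊔ C' ≤ U' := hmax.2 h4 le_sup_left
    have h6 : C = ⊥ := by
      rw [eq_bot_iff]
      intro c hc
      rw [AddSubgroup.mem_bot]
      have h7 : (Pi.single j c : Fin k → W) ∈ C' := (hC' _).2 ⟨c, hc, rfl⟩
      have h8 := h3 _ h7 (AddSubgroup.mem_sup_right (h5 (AddSubgroup.mem_sup_right h7)))
      have h9 := congrFun h8 j
      simpa using h9
    intro x hx
    have h7 := hCt x hx
    rw [h6, sup_bot_eq] at h7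
    exact ((hAm x).1 h7).2
  intro w hw
  rw [← Finset.univ_sum_single w]
  exact sum_mem fun j _ => key j (w j) (congrFun hw j)

theorem adm_pow (k : ℕ) (hA : Adm F W) : Adm F (Fin k → W) where
  stab := by
    intro w
    choose L hL hLt using fun j => hA.stab (w j)
    refine ⟨⨆ j, L j, ?_, fun σ hσ => funext fun j => ?_⟩
    · have := hL
      exact IntermediateField.finiteDimensional_iSup_of_finite
    · exact hLt j σ (IntermediateField.fixingSubgroup_antitone (le_iSup L j) hσ)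
  div := by
    intro w
    choose u hu using fun j => hA.div (w j)
    exact ⟨u, funext hu⟩
  fin := fin_pow k hA
  noinv := by
    intro w hw hσ
    funext j
    exact hA.noinv (w j) (congrFun hw j) fun σ => congrFun (hσ σ) j
  ss := fun U h2 hs => ss_pow k hA U h2 hs
  unr := by
    obtain ⟨B, hB, h⟩ := hA.unr
    exact ⟨B, hB, fun l _ hl ψ σ hσ w => funext fun j => h l hl ψ σ hσ (w j)⟩

/-- the cocycle of a family -/
theorem fam_mem {k B : ℕ} {D : F} (c : Fin k → SelZ W B D) :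
    (fun σ j => (c j : GF F → W) σ) ∈ SelZ (Fin k → W) B D := by
  refine ⟨⟨fun σ τ => funext fun j => (c j).2.1.1 σ τ, ?_⟩, ⟨fun l _ hl ψ => ?_,
    fun l _ hl ψ h => ?_⟩⟩
  · choose L hL hLt using fun j => (c j).2.1.2
    refine ⟨⨆ j, L j, ?_, fun σ hσ => funext fun j => ?_⟩
    · have := hL
      exact IntermediateField.finiteDimensional_iSup_of_finite
    · exact hLt j σ (IntermediateField.fixingSubgroup_antitone (le_iSup L j) hσ)
  · choose P hP using fun j => (c j).2.2.ine l hl ψ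
    exact ⟨P, fun σ hσ => funext fun j => hP j σ hσ⟩
  · choose P hP using fun j => (c j).2.2.dec l hl ψ h
    exact ⟨P, fun σ hσ => funext fun j => hP j σ hσ⟩

theorem mk_eq_zero {B : ℕ} {D : F} (c : SelZ W B D) :
    (QuotientAddGroup.mk c : Sel W B D) = 0 ↔ ∃ P, cob W D P = (c : GF F → W) := by
  rw [QuotientAddGroup.eq_zero_iff, AddSubgroup.mem_addSubgroupOf]
  rfl

end

/-- **POW** -/
theorem pow_ : S_POW := by
  classical
  intro F _ _ W _ _ k hA
  refine ⟨adm_pow k hA, fun B D hfin => ?_⟩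
  -- representatives
  have hrep : ∀ x : Sel W B D, ∃ c : SelZ W B D, (QuotientAddGroup.mk c : Sel W B D) = x :=
    fun x => QuotientAddGroup.mk_surjective x
  choose r hr using hrep
  obtain ⟨g, hg⟩ : ∃ g : (Fin k → Sel2 W B D) → SelZ (Fin k → W) B D,
      ∀ x σ j, (g x : GF F → Fin k → W) σ j = (r (x j).1 : GF F → W) σ :=
    ⟨fun x => ⟨fun σ j => (r (x j).1 : GF F → W) σ, fam_mem fun j => r (x j).1⟩, fun _ _ _ => rfl⟩
  have hg2 : ∀ x, (QuotientAddGroup.mk (g x) : Sel (Fin k → W) B D) +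
      (QuotientAddGroup.mk (g x) : Sel (Fin k → W) B D) = 0 := by
    intro x
    have h1 : ∀ j, ∃ P, cob W D P = ((r (x j).1 + r (x j).1 : SelZ W B D) : GF F → W) := by
      intro j
      rw [← mk_eq_zero]
      have h2 := (x j).2
      rw [QuotientAddGroup.mk_add, hr]
      exact h2
    choose P hP using h1
    rw [← QuotientAddGroup.mk_add, mk_eq_zero]
    refine ⟨P, ?_⟩
    funext σ j
    have h2 := congrFun (hP j) σ
    have h3 : ((g x + g x : SelZ (Fin k → W) B D) : GF F → Fin k → W) σ j =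
        ((r (x j).1 + r (x j).1 : SelZ W B D) : GF F → W) σ := by
      show (g x : GF F → Fin k → W) σ j + (g x : GF F → Fin k → W) σ j = _
      rw [hg]
      rfl
    rw [h3, ← h2]
    rfl
  have hinj : Function.Injective (fun x : Fin k → Sel2 W B D =>
      (⟨QuotientAddGroup.mk (g x), hg2 x⟩ : Sel2 (Fin k → W) B D)) := by
    intro x y hxy
    have h1 : (QuotientAddGroup.mk (g x - g y) : Sel (Fin k → W) B D) = 0 := by
      rw [QuotientAddGroup.mk_sub, sub_eq_zero]
      exact congrArg Subtype.val hxy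
    rw [mk_eq_zero] at h1
    obtain ⟨P, hP⟩ := h1
    funext j
    apply Subtype.ext
    have h2 : (QuotientAddGroup.mk (r (x j).1 - r (y j).1) : Sel W B D) = 0 := by
      rw [mk_eq_zero]
      refine ⟨P j, ?_⟩
      funext σ
      have h3 := congrFun (congrFun hP σ) j
      have h4 : ((g x - g y : SelZ (Fin k → W) B D) : GF F → Fin k → W) σ j =
          ((r (x j).1 - r (y j).1 : SelZ W B D) : GF F → W) σ := by
        show (g x : GF F → Fin k → W) σ j - (g y : GF F → Fin k → W) σ j = _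
        rw [hg, hg]
        rfl
      rw [← h4, ← h3]
      rfl
    rw [QuotientAddGroup.mk_sub, sub_eq_zero, hr, hr] at h2
    exact h2
  have h1 := Nat.card_le_card_of_injective _ hinj
  rw [Nat.card_fun, Nat.card_fin] at h1
  exact h1

end Pool.Agent.Q277.ESV
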